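import Pool.Agent.MP_a8721e_gt.Crit

/-!
For an infinite zero-dimensional homogeneous compactum, the semigroup of continuous self-maps is
left bounded exactly when the space is homeomorphic to a proper retract of itself.
-/

set_option autoImplicit false

namespace Pool.Agent.Results.MP_a8721e_gt.Criterion

open Pool.Agent.MP_a8721e_gt.Crit

theorem result (X : Type) [TopologicalSpace X] [T2Space X] [CompactSpace X] [Infinite X]
    (hb : TopologicalSpace.IsTopologicalBasis {s : Set X | IsClopen s})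
    (hom : ∀ x y : X, ∃ h : X ≃ₜ X, h x = y) :
    List.TFAE
      [∀ U ∈ nhds (id : X → X), ∃ F : Set (X → X), F.Finite ∧ (∀ g ∈ F, Continuous g) ∧
        ∀ f : X → X, Continuous f → ∃ g ∈ F, ∃ u ∈ U, Continuous u ∧ f = g ∘ u,
      ∀ U ∈ nhds (id : X → X), ∃ F : Set (X → X), F.Countable ∧ (∀ g ∈ F, Continuous g) ∧
        ∀ f : X → X, Continuous f → ∃ g ∈ F, ∃ u ∈ U, Continuous u ∧ f = g ∘ u,
      ∀ U ∈ nhds (id : X → X), ∃ F : Set (X → X), F.Finite ∧ (∀ g ∈ F, Continuous g) ∧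
        ∀ f : X → X, Continuous f → ∃ g ∈ F, ∃ u ∈ U, Continuous u ∧ f = u ∘ g,
      ∀ U ∈ nhds (id : X → X), ∃ g : X → X, Continuous g ∧
        ∀ f : X → X, Continuous f → ∃ u ∈ U, Continuous u ∧ f = u ∘ g,
      ∃ (x y : X) (V : Set X) (F : Set (X → X)), IsClopen V ∧ x ∈ V ∧ y ∉ V ∧ F.Finite ∧
        (∀ g ∈ F, Continuous g) ∧ ∀ h : X ≃ₜ X, ∃ g ∈ F, ∃ g' ∈ F, ∃ u : X → X,
          Continuous u ∧ u x ∈ V ∧ u y ∉ V ∧ ⇑h = g ∘ u ∘ g',
      ∃ (x y : X) (V : Set X) (F : Set (X → X)), IsClopen V ∧ x ∈ V ∧ y ∉ V ∧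
        (F.Countable ∨ Cardinal.mk F < Cardinal.mk {s : Set X | IsClopen s}) ∧
        (∀ g ∈ F, Continuous g) ∧ ∀ h : X ≃ₜ X, ∃ g ∈ F, ∃ u : X → X,
          Continuous u ∧ u x ∈ V ∧ u y ∉ V ∧ ⇑h = g ∘ u,
      ∃ g j : X → X, Continuous g ∧ Continuous j ∧ g ∘ j = id ∧ j ∘ g ≠ id,
      ∃ (r : X → X × Bool) (i : X × Bool → X), Continuous r ∧ Continuous i ∧ r ∘ i = id] := by
  have Z : ZH X := ⟨hb, hom⟩
  obtain ⟨x, y, V, -, hV, hx, hy, hU⟩ := Z.pair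
  tfae_have 7 → 1 := fun h U hU => Z.left h hU
  tfae_have 7 → 4 := fun h U hU => Z.right h hU
  tfae_have 1 → 2 := fun h U hU => (h U hU).imp fun F hF => ⟨hF.1.countable, hF.2⟩
  tfae_have 4 → 3 := fun h U hU => by
    obtain ⟨g, hg, h1⟩ := h U hU
    exact ⟨{g}, Set.finite_singleton _, fun γ e => e ▸ hg, fun f hf => ⟨g, rfl, h1 f hf⟩⟩
  tfae_have 3 → 5 := fun h => by
    obtain ⟨F, h1, h2, h3⟩ := h _ hU
    refine ⟨x, y, V, insert id F, hV, hx, hy, h1.insert _, ?_, fun k => ?_⟩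
    · rintro g (rfl | hg)
      exacts [continuous_id, h2 g hg]
    · obtain ⟨g, hg, u, hu, cu, e⟩ := h3 k k.continuous
      exact ⟨id, Or.inl rfl, g, Or.inr hg, u, cu, hu.1, hu.2, e⟩
  tfae_have 2 → 6 := fun h => by
    obtain ⟨F, h1, h2, h3⟩ := h _ hU
    refine ⟨x, y, V, F, hV, hx, hy, Or.inl h1, h2, fun k => ?_⟩
    obtain ⟨g, hg, u, hu, cu, e⟩ := h3 k k.continuous
    exact ⟨g, hg, u, cu, hu.1, hu.2, e⟩
  tfae_have 5 → 7 := fun ⟨_, _, _, _, _, _, _, h1, h2, h3⟩ => Z.nd_of_two h1 h2 h3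
  tfae_have 6 → 7 := fun ⟨_, _, _, _, h0, a1, a2, h1, h2, h3⟩ =>
    Z.nd_of_small h0 (ne_of_mem_of_not_mem a1 a2) h1 h2 h3
  tfae_have 7 → 8 := fun h => by
    obtain ⟨j, g, K, R, hK, -⟩ := Z.ret h Set.finite_empty
    exact Z.double R hK
  tfae_have 8 → 7 := fun ⟨_, _, h1, h2, h3⟩ => nd_of_double h1 h2 h3
  tfae_finish

end Pool.Agent.Results.MP_a8721e_gt.Criterion
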